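import Mathlib

/-!
Universal interpolation for Fourier transforms of compactly supported distributions.

Let `V = {(a_n, p_n)}` be a universal interpolating sequence for the algebra of entire functions
with `|f(z)| ≤ A exp (B ρ(z))`, `ρ(z) = |Im z| + log (1 + |z|²)`. We prove that some `f` in the
algebra vanishes on `V` and satisfies `|f^{(p_n)}(a_n)| / p_n! ≥ ε exp (-c ρ(a_n))` for all `n`.

Proof. By the theorem of Baire (and the compactness of the set of entire functions with a given
majorant) there are `g_n` in the algebra with a common bound `K exp (B ρ)` whose Taylor data on `V`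
are `1` at `(n, p_n - 1)` and `0` elsewhere. The same bound shows that the points are separated,
so that `∑ exp (-c ρ(a_n)) < ∞` for large `c`. Put `f = ∑ c_n (z - a_n) g_n(z)`. For each `m` the
coefficient of order `p_m` at `a_m` is `c_m + ∑_{n ≠ m} c_n b_{nm}`. If `c_n` runs through `N_n`
equally spaced points of `[0, R_n)`, then for fixed `c_n` (`n ≠ m`) at most one value of `c_m` makes
this coefficient smaller than `R_m / (2 N_m)`. If `∑ 1/N_n < 1`, counting and compactness give a
choice of the `c_n` that is good for all `m`.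
-/

set_option autoImplicit false

open Filter Topology Metric Set MeasureTheory
open scoped ENNReal

namespace Pool.Agent.Results.MP_2fa38d_an.UniversalCondition

/-! ### The objects of the problem -/

/-- `ρ(z) = |Im z| + log (1 + |z|²)`. -/
noncomputable def rho (z : ℂ) : ℝ := |z.im| + Real.log (1 + ‖z‖ ^ 2)

/-- The algebra of entire functions `f` with `|f(z)| ≤ A exp (B ρ(z))` for all `z`, for some
constants `A, B > 0`. -/
def InAlgebra (f : ℂ → ℂ) : Prop :=
  Differentiable ℂ f ∧ ∃ A B : ℝ, 0 < A ∧ 0 < B ∧ ∀ z, ‖f z‖ ≤ A * Real.exp (B * rho z)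

/-- A multiplicity sequence (indexed by any set, for instance `ℕ`): the points `a n` are distinct
and have no finite accumulation point, and the multiplicities `p n` are positive. -/
structure MultiplicitySequence {ι : Type} (a : ι → ℂ) (p : ι → ℕ) : Prop where
  distinct : Function.Injective a
  no_accumulation : ∀ R : ℝ, {n | ‖a n‖ ≤ R}.Finite
  pos : ∀ n, 1 ≤ p n

/-- `V ⊂ V(f)`: `f` vanishes at `a n` to order at least `p n`, for every `n`. -/
def Vanishes {ι : Type} (a : ι → ℂ) (p : ι → ℕ) (f : ℂ → ℂ) : Prop :=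
  ∀ n, ∀ k < p n, iteratedDeriv k f (a n) = 0

/-- `V` is a universal interpolating sequence. -/
def UniversalInterpolating {ι : Type} (a : ι → ℂ) (p : ι → ℕ) : Prop :=
  ∀ l : ι → ℕ → ℂ,
    (∃ A B : ℝ, 0 < A ∧ 0 < B ∧ ∀ n, ∀ k < p n, ‖l n k‖ ≤ A * Real.exp (B * rho (a n))) →
    ∃ g : ℂ → ℂ, InAlgebra g ∧
      ∀ n, ∀ k < p n, iteratedDeriv k g (a n) / (k.factorial : ℂ) = l n k

/-- `f` satisfies condition (2) for `V`. -/
def Condition2 {ι : Type} (a : ι → ℂ) (p : ι → ℕ) (f : ℂ → ℂ) : Prop :=
  (InAlgebra f ∧ f ≠ 0) ∧ Vanishes a p f ∧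
    ∃ ε c : ℝ, 0 < ε ∧ 0 < c ∧
      ∀ n, ε * Real.exp (-(c * rho (a n))) ≤
        ‖iteratedDeriv (p n) f (a n)‖ / ((p n).factorial : ℝ)

/-! ### Taylor coefficients as Cauchy integrals -/


/-- `T a k g` is the `k`-th Taylor coefficient at `a` of an entire function `g`, as a Cauchy
integral. -/
noncomputable def T (a : ℂ) (k : ℕ) (g : C(ℂ, ℂ)) : ℂ :=
  (2 * Real.pi * Complex.I)⁻¹ * ∮ z in C(a, 1), (1 / (z - a) ^ (k + 1)) * g z

theorem T_eq (a : ℂ) (k : ℕ) (g : C(ℂ, ℂ)) (hg : Differentiable ℂ g) :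
    T a k g = iteratedDeriv k g a / (k.factorial : ℂ) := by
  have h := DifferentiableOn.circleIntegral_one_div_sub_center_pow_smul (c := a) (f := g)
    (R := 1) one_pos k hg.differentiableOn
  simp only [smul_eq_mul] at h
  rw [T, h]
  have h2 : (2 * Real.pi * Complex.I : ℂ) ≠ 0 := Complex.two_pi_I_ne_zero
  field_simp

theorem circleIntegrable_aux (a : ℂ) (k : ℕ) (g : C(ℂ, ℂ)) :
    CircleIntegrable (fun z => (1 / (z - a) ^ (k + 1)) * g z) a 1 := by
  apply ContinuousOn.circleIntegrable zero_le_one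
  apply ContinuousOn.mul
  · apply ContinuousOn.div continuousOn_const
    · fun_prop
    · intro z hz
      apply pow_ne_zero
      intro h
      rw [sub_eq_zero] at h
      rw [h] at hz
      simp at hz
  · exact g.continuous.continuousOn

theorem T_sub (a : ℂ) (k : ℕ) (g h : C(ℂ, ℂ)) : T a k (g - h) = T a k g - T a k h := by
  unfold T
  rw [← mul_sub, ← circleIntegral.integral_sub (circleIntegrable_aux a k g)
    (circleIntegrable_aux a k h)]
  congr 2
  ext z
  simp only [ContinuousMap.sub_apply]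
  ring

theorem T_add (a : ℂ) (k : ℕ) (g h : C(ℂ, ℂ)) : T a k (g + h) = T a k g + T a k h := by
  unfold T
  rw [← mul_add, ← circleIntegral.integral_add (circleIntegrable_aux a k g)
    (circleIntegrable_aux a k h)]
  congr 2
  ext z
  simp only [ContinuousMap.add_apply]
  ring

theorem T_smul (a : ℂ) (k : ℕ) (c : ℂ) (g : C(ℂ, ℂ)) : T a k (c • g) = c * T a k g := by
  unfold T
  have : (fun z => (1 / (z - a) ^ (k + 1)) * (c • g) z) =
      fun z => c • ((1 / (z - a) ^ (k + 1)) * g z) := by
    ext z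
    simp only [ContinuousMap.smul_apply, smul_eq_mul]
    ring
  rw [this, circleIntegral.integral_smul, smul_eq_mul]
  ring

theorem T_bound (a : ℂ) (k : ℕ) (g : C(ℂ, ℂ)) (K : ℝ) (hK : ∀ z ∈ sphere a 1, ‖g z‖ ≤ K) :
    ‖T a k g‖ ≤ K := by
  have h : ∀ z ∈ sphere a 1, ‖(1 / (z - a) ^ (k + 1)) * g z‖ ≤ K := by
    intro z hz
    have h1 : ‖z - a‖ = 1 := by simpa [mem_sphere_iff_norm] using hz
    rw [norm_mul, norm_div, norm_pow, h1]
    simpa using hK z hz
  have := circleIntegral.norm_two_pi_i_inv_smul_integral_le_of_norm_le_const zero_le_one h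
  simpa [T, smul_eq_mul] using this

theorem T_continuous (a : ℂ) (k : ℕ) : Continuous (T a k) := by
  rw [continuous_iff_continuousAt]
  intro g
  rw [ContinuousAt, tendsto_iff_norm_sub_tendsto_zero]
  have h1 : Tendsto (fun h : C(ℂ, ℂ) => h) (𝓝 g) (𝓝 g) := tendsto_id
  rw [ContinuousMap.tendsto_iff_forall_isCompact_tendstoUniformlyOn] at h1
  have h2 := h1 (sphere a 1) (isCompact_sphere a 1)
  rw [Metric.tendstoUniformlyOn_iff] at h2
  rw [Metric.tendsto_nhds]
  intro ε hε
  filter_upwards [h2 (ε / 2) (by linarith)] with h hh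
  rw [Real.dist_eq, sub_zero, abs_of_nonneg (norm_nonneg _), ← T_sub]
  refine lt_of_le_of_lt (T_bound a k (h - g) (ε / 2) ?_) (by linarith)
  intro z hz
  have := hh z hz
  rw [dist_comm, dist_eq_norm] at this
  exact this.le

/-- The entire functions bounded by `M`. -/
def G (M : ℂ → ℝ) : Set C(ℂ, ℂ) := {g | Differentiable ℂ g ∧ ∀ z, ‖g z‖ ≤ M z}

theorem G_closed (M : ℂ → ℝ) : IsClosed (G M) := by
  rw [isClosed_iff_forall_filter]
  intro g F hne hF hg
  have hT : Tendsto (fun h : C(ℂ, ℂ) => h) F (𝓝 g) := hg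
  constructor
  · have h1 := ContinuousMap.tendsto_iff_tendstoLocallyUniformly.1 hT
    have h2 : TendstoLocallyUniformlyOn (fun (h : C(ℂ, ℂ)) (z : ℂ) => h z) g F univ :=
      tendstoLocallyUniformlyOn_univ.2 h1
    have h3 := h2.differentiableOn (by
      have : G M ∈ F := le_principal_iff.1 hF
      filter_upwards [this] with h hh
      exact hh.1.differentiableOn) isOpen_univ
    exact differentiableOn_univ.1 h3
  · intro z
    have h1 : Tendsto (fun h : C(ℂ, ℂ) => h z) F (𝓝 (g z)) :=
      ((continuous_eval_const (F := C(ℂ, ℂ)) z).tendsto g).comp hT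
    refine le_of_tendsto h1.norm ?_
    have : G M ∈ F := le_principal_iff.1 hF
    filter_upwards [this] with h hh
    exact hh.2 z

theorem lip_of_bound {g : ℂ → ℂ} (hg : Differentiable ℂ g) (a : ℂ) (K : ℝ)
    (hK : ∀ z ∈ closedBall a 2, ‖g z‖ ≤ K) {z w : ℂ} (hz : z ∈ closedBall a 1)
    (hw : w ∈ closedBall a 1) : ‖g z - g w‖ ≤ K * ‖z - w‖ := by
  apply Convex.norm_image_sub_le_of_norm_deriv_le (s := closedBall a 1)
    (fun x _ => hg x) _ (convex_closedBall a 1) hw hz
  intro x hx
  have := Complex.norm_deriv_le_of_forall_mem_sphere_norm_le (c := x) (R := 1) (C := K) (f := g)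
    one_pos hg.diffContOnCl (by
      intro y hy
      apply hK
      rw [mem_closedBall] at hx ⊢
      rw [mem_sphere] at hy
      calc dist y a ≤ dist y x + dist x a := dist_triangle _ _ _
        _ ≤ 2 := by linarith)
  simpa using this

theorem G_compact (M : ℂ → ℝ) (hM : ∀ a : ℂ, ∃ K, ∀ z ∈ closedBall a 2, M z ≤ K) :
    IsCompact (G M) := by
  have hcl : IsClosedEmbedding (ContinuousMap.toUniformOnFunIsCompact : C(ℂ, ℂ) → _) := by
    have : T2Space (UniformOnFun ℂ ℂ {K | IsCompact K}) :=
      UniformOnFun.t2Space_of_covering (by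
        rw [Set.sUnion_eq_univ_iff]
        intro x
        exact ⟨{x}, isCompact_singleton, rfl⟩)
    exact ContinuousMap.isUniformEmbedding_toUniformOnFunIsCompact.isClosedEmbedding
  have := ArzelaAscoli.isCompact_closure_of_isClosedEmbedding (ι := C(ℂ, ℂ)) (X := ℂ) (α := ℂ)
    (𝔖 := {K | IsCompact K}) (F := fun g => g) (fun K hK => hK) hcl (s := G M) ?_ ?_
  · rwa [(G_closed M).closure_eq] at this
  · intro K _
    apply Equicontinuous.equicontinuousOn
    intro a
    obtain ⟨K', hK'⟩ := hM a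
    apply Metric.equicontinuousAt_of_continuity_modulus (fun z => |K'| * ‖z - a‖)
    · have : Tendsto (fun z : ℂ => |K'| * ‖z - a‖) (𝓝 a) (𝓝 (|K'| * ‖a - a‖)) := by
        apply Continuous.tendsto
        fun_prop
      simpa using this
    · filter_upwards [closedBall_mem_nhds a one_pos] with z hz
      rintro ⟨g, hg⟩
      rw [dist_comm, dist_eq_norm]
      refine (lip_of_bound hg.1 a |K'| (fun x hx => ?_) hz (mem_closedBall_self zero_le_one))
      exact (hg.2 x).trans ((hK' x hx).trans (le_abs_self _))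
  · intro K _ x _
    refine ⟨closedBall 0 (M x), isCompact_closedBall _ _, ?_⟩
    intro g hg
    simpa using hg.2 x



theorem rho_nonneg (z : ℂ) : 0 ≤ rho z := by
  unfold rho
  have : 0 ≤ Real.log (1 + ‖z‖ ^ 2) := Real.log_nonneg (by nlinarith [sq_nonneg ‖z‖])
  positivity

theorem rho_le_add {z w : ℂ} (h : ‖z - w‖ ≤ 1) : rho z ≤ rho w + 3 := by
  unfold rho
  have h1 : |z.im| ≤ |w.im| + 1 := by
    have : |(z - w).im| ≤ ‖z - w‖ := Complex.abs_im_le_norm _
    rw [Complex.sub_im] at this
    have h2 : |z.im| ≤ |z.im - w.im| + |w.im| := by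
      have := abs_add_le (z.im - w.im) w.im
      simpa using this
    linarith
  have h2 : ‖z‖ ≤ ‖w‖ + 1 := by
    have := norm_add_le (z - w) w
    rw [sub_add_cancel] at this
    linarith
  have h3 : 1 + ‖z‖ ^ 2 ≤ 3 * (1 + ‖w‖ ^ 2) := by
    nlinarith [norm_nonneg z, norm_nonneg w, sq_nonneg (‖w‖ - 1)]
  have h4 : Real.log (1 + ‖z‖ ^ 2) ≤ Real.log 3 + Real.log (1 + ‖w‖ ^ 2) := by
    rw [← Real.log_mul (by norm_num) (by positivity)]
    exact Real.log_le_log (by positivity) h3
  have h5 : Real.log 3 ≤ 2 := by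
    have := Real.log_le_sub_one_of_pos (show (0:ℝ) < 3 by norm_num)
    linarith
  linarith

theorem one_add_norm_le (z : ℂ) : 1 + ‖z‖ ≤ 2 * Real.exp (rho z) := by
  have h1 : Real.exp (rho z) = Real.exp |z.im| * (1 + ‖z‖ ^ 2) := by
    rw [rho, Real.exp_add, Real.exp_log (by positivity)]
  have h2 : 1 ≤ Real.exp |z.im| := Real.one_le_exp (abs_nonneg _)
  have h3 : 1 + ‖z‖ ≤ 2 * (1 + ‖z‖ ^ 2) := by nlinarith [sq_nonneg (‖z‖ - 1), sq_nonneg ‖z‖]
  have h4 : (1 + ‖z‖ ^ 2) ≤ Real.exp |z.im| * (1 + ‖z‖ ^ 2) :=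
    le_mul_of_one_le_left (by positivity) h2
  rw [h1]; linarith

/-- weights `A exp (B ρ)` are locally bounded -/
theorem weight_bdd (A B : ℝ) (a : ℂ) : ∃ K, ∀ z ∈ closedBall a 2, A * Real.exp (B * rho z) ≤ K := by
  have hc : ContinuousOn (fun z : ℂ => A * Real.exp (B * rho z)) (closedBall a 2) := by
    apply Continuous.continuousOn
    unfold rho
    have : Continuous fun z : ℂ => Real.log (1 + ‖z‖ ^ 2) := by
      apply Continuous.log (by fun_prop)
      intro z
      positivity
    have h2 : Continuous fun z : ℂ => |z.im| := by fun_prop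
    fun_prop
  obtain ⟨K, hK⟩ := ((isCompact_closedBall a 2).image_of_continuousOn hc).bddAbove
  exact ⟨K, fun z hz => hK ⟨z, hz, rfl⟩⟩

/-- Uniform interpolation: if every bounded array can be interpolated, then the unit arrays can be
interpolated with a uniform bound. -/
theorem uniform_interp {J : Type*} (a : J → ℂ) (k : J → ℕ)
    (hU : ∀ l : J → ℂ, (∀ j, ‖l j‖ ≤ 1) → ∃ (g : C(ℂ, ℂ)) (A B : ℝ), Differentiable ℂ g ∧
      (∀ z, ‖g z‖ ≤ A * Real.exp (B * rho z)) ∧ ∀ j, T (a j) (k j) g = l j) :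
    ∃ K B : ℝ, 1 ≤ K ∧ 0 ≤ B ∧ ∀ l : J → ℂ, (∀ j, ‖l j‖ ≤ 1) → ∃ g : C(ℂ, ℂ), Differentiable ℂ g ∧
      (∀ z, ‖g z‖ ≤ K * Real.exp (B * rho z)) ∧ ∀ j, T (a j) (k j) g = l j := by
  classical
  set M : ℕ → ℂ → ℝ := fun n z => (n : ℝ) * Real.exp ((n : ℝ) * rho z) with hM
  set X : ℕ → Set (lp (fun _ : J => ℂ) ∞) := fun n =>
    {l | ∃ g ∈ G (M n), ∀ j, T (a j) (k j) g = l j} with hX
  have hclosed : ∀ n, IsClosed (X n) := by
    intro n
    have h1 : IsCompact ((fun g : C(ℂ, ℂ) => fun j => T (a j) (k j) g) '' G (M n)) := by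
      apply (G_compact (M n) (fun b => weight_bdd _ _ b)).image
      exact continuous_pi fun j => T_continuous _ _
    have h2 : Continuous (fun l : lp (fun _ : J => ℂ) ∞ => (fun j => l j)) :=
      lp.uniformContinuous_coe.continuous
    have h3 := h1.isClosed.preimage h2
    convert h3 using 1
    ext l
    simp only [hX, mem_ofPred_eq, mem_preimage, mem_image]
    constructor
    · rintro ⟨g, hg, h⟩
      exact ⟨g, hg, funext h⟩
    · rintro ⟨g, hg, h⟩
      exact ⟨g, hg, fun j => congrFun h j⟩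
  have hunion : ⋃ n, X n = univ := by
    rw [eq_univ_iff_forall]
    intro l
    rw [mem_iUnion]
    obtain ⟨c, hc0, hc⟩ : ∃ c : ℝ, 0 < c ∧ ‖l‖ ≤ c := ⟨‖l‖ + 1, by positivity, by linarith⟩
    obtain ⟨g, A, B, hg, hb, hi⟩ := hU (fun j => (c : ℂ)⁻¹ * l j) (by
      intro j
      rw [norm_mul, norm_inv, Complex.norm_real, Real.norm_of_nonneg hc0.le, inv_mul_le_iff₀ hc0,
        mul_one]
      exact (lp.norm_apply_le_norm ENNReal.top_ne_zero l j).trans hc)
    obtain ⟨n, hn⟩ := exists_nat_ge (max (c * A) B)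
    refine ⟨n, (c : ℂ) • g, ⟨?_, ?_⟩, ?_⟩
    · exact hg.const_smul (c : ℂ)
    · intro z
      rw [ContinuousMap.smul_apply, norm_smul, Complex.norm_real, Real.norm_of_nonneg hc0.le]
      have h1 : c * A ≤ n := (le_max_left _ _).trans hn
      have h2 : B ≤ n := (le_max_right _ _).trans hn
      have h3 : Real.exp (B * rho z) ≤ Real.exp ((n : ℝ) * rho z) :=
        Real.exp_le_exp.2 (mul_le_mul_of_nonneg_right h2 (rho_nonneg z))
      calc c * ‖g z‖ ≤ c * (A * Real.exp (B * rho z)) := mul_le_mul_of_nonneg_left (hb z) hc0.le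
        _ = (c * A) * Real.exp (B * rho z) := by ring
        _ ≤ n * Real.exp (B * rho z) := mul_le_mul_of_nonneg_right h1 (Real.exp_pos _).le
        _ ≤ n * Real.exp ((n : ℝ) * rho z) := mul_le_mul_of_nonneg_left h3 (Nat.cast_nonneg n)
    · intro j
      rw [T_smul, hi, mul_inv_cancel_left₀]
      exact_mod_cast hc0.ne'
  obtain ⟨n, l0, hl0⟩ := nonempty_interior_of_iUnion_of_closed hclosed hunion
  rw [mem_interior_iff_mem_nhds, Metric.mem_nhds_iff] at hl0
  obtain ⟨ε, hε, hball⟩ := hl0
  set r : ℝ := ε / 2 with hr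
  have hr0 : 0 < r := by positivity
  refine ⟨max 1 (r⁻¹ * n), n, le_max_left _ _, Nat.cast_nonneg n, ?_⟩
  intro l hl
  have hmem : Memℓp (fun j => (r : ℂ) * l j) ∞ := by
    apply memℓp_infty
    refine ⟨r, ?_⟩
    rintro _ ⟨j, rfl⟩
    simp only [norm_mul, Complex.norm_real, Real.norm_of_nonneg hr0.le]
    exact mul_le_of_le_one_right hr0.le (hl j)
  set m : lp (fun _ : J => ℂ) ∞ := ⟨_, hmem⟩ with hm
  have hmn : ‖m‖ ≤ r := by
    apply lp.norm_le_of_forall_le hr0.le
    intro j
    simp only [hm]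
    rw [norm_mul, Complex.norm_real, Real.norm_of_nonneg hr0.le]
    exact mul_le_of_le_one_right hr0.le (hl j)
  have h1 : l0 + m ∈ X n := by
    apply hball
    rw [mem_ball, dist_eq_norm, add_sub_cancel_left]
    linarith
  have h2 : l0 - m ∈ X n := by
    apply hball
    rw [mem_ball, dist_eq_norm, sub_sub_cancel_left, norm_neg]
    linarith
  obtain ⟨g1, ⟨hd1, hb1⟩, hi1⟩ := h1
  obtain ⟨g2, ⟨hd2, hb2⟩, hi2⟩ := h2
  refine ⟨((2 * r : ℝ) : ℂ)⁻¹ • (g1 - g2), ?_, ?_, ?_⟩
  · exact (hd1.sub hd2).const_smul _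
  · intro z
    rw [ContinuousMap.smul_apply, norm_smul, norm_inv, Complex.norm_real,
      Real.norm_of_nonneg (by positivity), ContinuousMap.sub_apply]
    have h3 : ‖g1 z - g2 z‖ ≤ 2 * M n z := by
      have := norm_sub_le (g1 z) (g2 z)
      linarith [hb1 z, hb2 z]
    calc (2 * r)⁻¹ * ‖g1 z - g2 z‖ ≤ (2 * r)⁻¹ * (2 * M n z) :=
          mul_le_mul_of_nonneg_left h3 (by positivity)
      _ = (r⁻¹ * n) * Real.exp ((n : ℝ) * rho z) := by
          simp only [hM]; field_simp
      _ ≤ max 1 (r⁻¹ * n) * Real.exp ((n : ℝ) * rho z) :=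
          mul_le_mul_of_nonneg_right (le_max_right _ _) (Real.exp_pos _).le
  · intro j
    rw [T_smul, T_sub, hi1, hi2]
    have h4 : ((l0 + m : lp (fun _ : J => ℂ) ∞) : J → ℂ) j = l0 j + m j := by
      rw [lp.coeFn_add]; rfl
    have h5 : ((l0 - m : lp (fun _ : J => ℂ) ∞) : J → ℂ) j = l0 j - m j := by
      rw [lp.coeFn_sub]; rfl
    have h6 : m j = (r : ℂ) * l j := rfl
    rw [h4, h5, h6]
    have : (r : ℂ) ≠ 0 := by exact_mod_cast hr0.ne'
    push_cast
    field_simp
    ring


/-- Separated points: `∑ exp (-c ρ(a_n))` converges for large `c`. -/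
theorem summable_of_sep {ι : Type*} (a : ι → ℂ) (K B : ℝ) (hK : 1 ≤ K) (hB : 0 ≤ B)
    (hsep : ∀ m n, m ≠ n → Real.exp (-(B * rho (a n))) ≤ K * ‖a n - a m‖) :
    Summable fun n => Real.exp (-((2 * B + 4) * rho (a n))) := by
  classical
  set r : ι → ℝ := fun n => Real.exp (-(B * rho (a n))) / (2 * K) with hr
  have hr0 : ∀ n, 0 < r n := fun n => by positivity
  have hexp1 : ∀ n, Real.exp (-(B * rho (a n))) ≤ 1 := fun n =>
    Real.exp_le_one_iff.2 (neg_nonpos.2 (mul_nonneg hB (rho_nonneg _)))
  have hr1 : ∀ n, r n ≤ 1 := by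
    intro n
    simp only [hr]
    rw [div_le_one (by positivity)]
    linarith [hexp1 n]
  have hdisj : Pairwise (Function.onFun Disjoint fun n => ball (a n) (r n)) := by
    intro m n hmn
    apply ball_disjoint_ball
    have h1 := hsep m n hmn
    have h2 := hsep n m hmn.symm
    rw [dist_eq_norm]
    have e1 : r m + r n = (Real.exp (-(B * rho (a m))) + Real.exp (-(B * rho (a n)))) / (2 * K) := by
      simp only [hr]; ring
    rw [e1, div_le_iff₀ (by positivity)]
    have e2 : ‖a n - a m‖ = ‖a m - a n‖ := norm_sub_rev _ _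
    rw [e2] at h1
    nlinarith
  set φ : ℂ → ℝ := fun z => (1 + ‖z‖) ^ (-4 : ℝ) with hφ
  have hφi : Integrable φ := by
    apply integrable_one_add_norm
    rw [Complex.finrank_real_complex]; norm_num
  have hφ0 : ∀ z, 0 ≤ φ z := fun z => by positivity
  set q : ℝ := (2 * Real.exp 3) ^ (-4 : ℝ) with hq
  have hq0 : 0 < q := by positivity
  -- lower bound for `φ` on the discs
  have hlow : ∀ n, ∀ z ∈ ball (a n) (r n), q * Real.exp (-(4 * rho (a n))) ≤ φ z := by
    intro n z hz
    have h1 : ‖z - a n‖ ≤ 1 := by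
      rw [← dist_eq_norm]
      exact (mem_ball.1 hz).le.trans (hr1 n)
    have h2 := rho_le_add h1
    have h3 : 1 + ‖z‖ ≤ (2 * Real.exp 3) * Real.exp (rho (a n)) := by
      calc 1 + ‖z‖ ≤ 2 * Real.exp (rho z) := one_add_norm_le z
        _ ≤ 2 * Real.exp (rho (a n) + 3) := by
            have := Real.exp_le_exp.2 h2
            linarith
        _ = (2 * Real.exp 3) * Real.exp (rho (a n)) := by rw [Real.exp_add]; ring
    have h4 : φ z ≥ ((2 * Real.exp 3) * Real.exp (rho (a n))) ^ (-4 : ℝ) :=
      Real.rpow_le_rpow_of_nonpos (by positivity) h3 (by norm_num)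
    have h5 : ((2 * Real.exp 3) * Real.exp (rho (a n))) ^ (-4 : ℝ) =
        q * Real.exp (-(4 * rho (a n))) := by
      rw [Real.mul_rpow (by positivity) (by positivity), ← Real.exp_mul]
      congr 2
      ring
    rw [h5] at h4
    exact h4
  have hvol : ∀ n, (volume : Measure ℂ).real (ball (a n) (r n)) = Real.pi * r n ^ 2 := by
    intro n
    rw [Measure.real, Complex.volume_ball, ENNReal.toReal_mul, ENNReal.toReal_pow,
      ENNReal.toReal_ofReal (hr0 n).le]
    simp [mul_comm]
  have hint : ∀ n, q * Real.exp (-(4 * rho (a n))) * (Real.pi * r n ^ 2) ≤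
      ∫ z in ball (a n) (r n), φ z := by
    intro n
    rw [← hvol n]
    exact setIntegral_ge_of_const_le_real measurableSet_ball (measure_ball_lt_top).ne (hlow n)
      hφi.integrableOn
  set C0 : ℝ := q * Real.pi / (4 * K ^ 2) with hC0
  have hC0p : 0 < C0 := by positivity
  have hterm : ∀ n, C0 * Real.exp (-((2 * B + 4) * rho (a n))) ≤ ∫ z in ball (a n) (r n), φ z := by
    intro n
    refine le_trans (le_of_eq ?_) (hint n)
    have e : Real.exp (-((2 * B + 4) * rho (a n))) =
        Real.exp (-(4 * rho (a n))) * Real.exp (-(B * rho (a n))) ^ 2 := by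
      rw [← Real.exp_nat_mul, ← Real.exp_add]
      congr 1
      push_cast
      ring
    rw [e, hC0, hr]
    simp only [div_pow]
    field_simp
    ring
  have hsum : ∀ u : Finset ι, ∑ n ∈ u, C0 * Real.exp (-((2 * B + 4) * rho (a n))) ≤ ∫ z, φ z := by
    intro u
    calc ∑ n ∈ u, C0 * Real.exp (-((2 * B + 4) * rho (a n)))
        ≤ ∑ n ∈ u, ∫ z in ball (a n) (r n), φ z := Finset.sum_le_sum fun n _ => hterm n
      _ = ∫ z in ⋃ n ∈ u, ball (a n) (r n), φ z := by
          rw [integral_biUnion_finset u (fun n _ => measurableSet_ball)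
            (fun m _ n _ hmn => hdisj hmn) (fun n _ => hφi.integrableOn)]
      _ ≤ ∫ z, φ z := setIntegral_le_integral hφi (Eventually.of_forall hφ0)
  have hs := summable_of_sum_le (f := fun n => C0 * Real.exp (-((2 * B + 4) * rho (a n))))
    (fun n => by positivity) hsum
  exact (summable_mul_left_iff hC0p.ne').1 hs

/-- The counting argument: if for each `m` the set `bad m` of bad tuples contains at most one
element on each line in direction `m`, and `∑ 1 / N m < 1`, there is a good tuple. -/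
theorem exists_good_finite {S : Type*} [Fintype S] [DecidableEq S] (N : S → ℕ)
    (hN : ∀ m, 0 < N m) (hsum : ∑ m, (1 / (N m : ℝ)) < 1) (bad : S → (∀ m, Fin (N m)) → Prop)
    (hbad : ∀ m t v w, bad m (Function.update t m v) → bad m (Function.update t m w) → v = w) :
    ∃ t, ∀ m, ¬ bad m t := by
  classical
  by_contra hcon
  push Not at hcon
  set Bd : S → Finset (∀ m, Fin (N m)) := fun m => Finset.univ.filter (bad m) with hBd
  have hcov : (Finset.univ : Finset (∀ m, Fin (N m))) ⊆ Finset.univ.biUnion Bd := by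
    intro t _
    obtain ⟨m, hm⟩ := hcon t
    simp only [Finset.mem_biUnion, Finset.mem_univ, true_and, hBd, Finset.mem_filter]
    exact ⟨m, hm⟩
  have hcard : ∀ m, (Bd m).card * N m ≤ Fintype.card (∀ m, Fin (N m)) := by
    intro m
    have h1 : Fintype.card (Bd m × Fin (N m)) = (Bd m).card * N m := by
      rw [Fintype.card_prod, Fintype.card_coe, Fintype.card_fin]
    rw [← h1]
    apply Fintype.card_le_of_injective (fun x : Bd m × Fin (N m) => Function.update x.1.1 m x.2)
    rintro ⟨⟨t, ht⟩, v⟩ ⟨⟨s, hs⟩, w⟩ h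
    simp only at h
    have hv : v = w := by
      have := congrFun h m
      simpa using this
    subst hv
    have hts : ∀ n, n ≠ m → t n = s n := by
      intro n hn
      have := congrFun h n
      simpa [hn] using this
    have hs' : s = Function.update t m (s m) := by
      funext n
      by_cases hn : n = m
      · subst hn; simp
      · simp [hn, hts n hn]
    have ht' : t = Function.update t m (t m) := by simp
    simp only [hBd, Finset.mem_filter, Finset.mem_univ, true_and] at ht hs
    rw [hs'] at hs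
    rw [ht'] at ht
    have := hbad m t _ _ ht hs
    have hts2 : t = s := by
      funext n
      by_cases hn : n = m
      · subst hn; exact this
      · exact hts n hn
    subst hts2
    rfl
  have hT : (0 : ℝ) < (Fintype.card (∀ m, Fin (N m)) : ℝ) := by
    have : Nonempty (∀ m, Fin (N m)) := ⟨fun m => ⟨0, hN m⟩⟩
    exact_mod_cast Fintype.card_pos
  have h2 : (Fintype.card (∀ m, Fin (N m)) : ℝ) ≤ ∑ m, ((Bd m).card : ℝ) := by
    have := (Finset.card_le_card hcov).trans Finset.card_biUnion_le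
    rw [Finset.card_univ] at this
    exact_mod_cast this
  have h3 : ∑ m, ((Bd m).card : ℝ) ≤
      ∑ m, (Fintype.card (∀ m, Fin (N m)) : ℝ) * (1 / (N m : ℝ)) := by
    apply Finset.sum_le_sum
    intro m _
    have hNm : (0 : ℝ) < N m := by exact_mod_cast hN m
    rw [mul_one_div, le_div_iff₀ hNm]
    exact_mod_cast hcard m
  rw [← Finset.mul_sum] at h3
  nlinarith

/-- The choice of the coefficients. -/
theorem exists_good {ι : Type*} (N : ι → ℕ) (hN : ∀ m, 0 < N m)
    (hsum : Summable fun m => 1 / (N m : ℝ)) (hsum1 : ∑' m, 1 / (N m : ℝ) < 1)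
    (b : ι → ι → ℂ) (R : ι → ℝ) (hR : ∀ m, 0 < R m)
    (u : ι → ι → ℝ) (hu : ∀ m, Summable (u m)) (hbu : ∀ m n, ‖(R n : ℂ) * b n m‖ ≤ u m n)
    (hb : ∀ m, b m m = 1) :
    ∃ t : ι → ℝ, (∀ n, 0 ≤ t n ∧ t n ≤ 1) ∧
      ∀ m, R m / (2 * N m) ≤ ‖∑' n, ((R n : ℂ) * (t n : ℂ)) * b n m‖ := by
  classical
  set X := ∀ n, Fin (N n) with hX
  set τ : X → ι → ℝ := fun t n => (t n : ℕ) / (N n : ℝ) with hτ
  have hτ01 : ∀ t n, 0 ≤ τ t n ∧ τ t n ≤ 1 := by
    intro t n
    have hNn : (0 : ℝ) < N n := by exact_mod_cast hN n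
    constructor
    · simp only [hτ]; positivity
    · simp only [hτ]
      rw [div_le_one hNn]
      exact_mod_cast (t n).2.le
  set L : ι → X → ℂ := fun m t => ∑' n, ((R n : ℂ) * (τ t n : ℂ)) * b n m with hL
  have hbound : ∀ m n t, ‖((R n : ℂ) * (τ t n : ℂ)) * b n m‖ ≤ u m n := by
    intro m n t
    have h1 : ((R n : ℂ) * (τ t n : ℂ)) * b n m = (τ t n : ℂ) * ((R n : ℂ) * b n m) := by ring
    rw [h1, norm_mul, Complex.norm_real, Real.norm_of_nonneg (hτ01 t n).1]
    exact (mul_le_of_le_one_left (norm_nonneg _) (hτ01 t n).2).trans (hbu m n)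
  have hsumm : ∀ m t, Summable fun n => ((R n : ℂ) * (τ t n : ℂ)) * b n m := fun m t =>
    Summable.of_norm_bounded (hu m) (fun n => hbound m n t)
  have hcont : ∀ m, Continuous (L m) := by
    intro m
    apply continuous_tsum (u := u m)
    · intro n
      apply Continuous.mul _ continuous_const
      apply Continuous.mul continuous_const
      have : Continuous fun t : X => t n := continuous_apply n
      have h2 : Continuous fun k : Fin (N n) => (((k : ℕ) / (N n : ℝ) : ℝ) : ℂ) :=
        continuous_of_discreteTopology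
      exact h2.comp this
    · exact hu m
    · intro n t
      exact hbound m n t
  -- good sets
  set Gd : ι → Set X := fun m => {t | R m / (2 * N m) ≤ ‖L m t‖} with hGd
  have hclosed : ∀ m, IsClosed (Gd m) := fun m => isClosed_le continuous_const (hcont m).norm
  have hfin : ∀ S : Finset ι, (⋂ m ∈ S, Gd m).Nonempty := by
    intro S
    -- extension by zero
    set e : (∀ m : S, Fin (N m)) → X := fun s n =>
      if h : n ∈ S then s ⟨n, h⟩ else ⟨0, hN n⟩ with he
    have hsumS : ∑ m : S, (1 / (N (m : ι) : ℝ)) < 1 := by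
      have h1 : ∑ m : S, (1 / (N (m : ι) : ℝ)) = ∑ m ∈ S, (1 / (N m : ℝ)) :=
        Finset.sum_coe_sort S (fun m => (1 / (N m : ℝ)))
      rw [h1]
      refine lt_of_le_of_lt (hsum.sum_le_tsum S (fun m _ => by positivity)) hsum1
    obtain ⟨s, hs⟩ := exists_good_finite (S := S) (fun m => N m) (fun m => hN m) hsumS
      (fun m s => ¬ (R m / (2 * N (m : ι)) ≤ ‖L m (e s)‖)) (by
        intro m s v w hv hw
        push Not at hv hw
        by_contra hvw
        -- the difference of the two values
        have hdiff : L m (e (Function.update s m v)) - L m (e (Function.update s m w)) =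
            (R m : ℂ) * (((((v : ℕ) : ℝ) - ((w : ℕ) : ℝ)) / (N m : ℝ) : ℝ) : ℂ) := by
          simp only [hL]
          rw [← (hsumm _ _).tsum_sub (hsumm _ _), tsum_eq_single (m : ι)]
          · have e1 : e (Function.update s m v) m = v := by
              simp [he]
            have e2 : e (Function.update s m w) m = w := by
              simp [he]
            simp only [hτ, e1, e2, hb]
            push_cast
            ring
          · intro n hn
            have e1 : e (Function.update s m v) n = e (Function.update s m w) n := by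
              simp only [he]
              split_ifs with h
              · have hne : (⟨n, h⟩ : S) ≠ m := fun h' => hn (by rw [← h'])
                rw [Function.update_of_ne hne, Function.update_of_ne hne]
              · rfl
            simp only [hτ, e1, sub_self]
        have hNm : (0 : ℝ) < N m := by exact_mod_cast hN m
        have hlt : ‖L m (e (Function.update s m v)) - L m (e (Function.update s m w))‖ <
            R m / N m := by
          have := norm_sub_le (L m (e (Function.update s m v))) (L m (e (Function.update s m w)))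
          have h2 : R m / (2 * N (m : ι)) + R m / (2 * N (m : ι)) = R m / N m := by
            field_simp; ring
          linarith
        rw [hdiff, norm_mul, Complex.norm_real, Complex.norm_real,
          Real.norm_of_nonneg (hR m).le, Real.norm_eq_abs, abs_div, abs_of_pos hNm,
          ← mul_div_assoc, div_lt_div_iff_of_pos_right hNm] at hlt
        have h3 : |(((v : ℕ) : ℝ) - ((w : ℕ) : ℝ))| < 1 := by
          have hRm := hR m
          by_contra h
          push Not at h
          nlinarith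
        have h4 : ((v : ℕ) : ℤ) = ((w : ℕ) : ℤ) := by
          have h5 : |(((v : ℕ) : ℤ) - ((w : ℕ) : ℤ))| < 1 := by
            exact_mod_cast h3
          have h6 := abs_lt.1 h5
          omega
        exact hvw (Fin.ext (by exact_mod_cast h4)))
    refine ⟨e s, ?_⟩
    simp only [mem_iInter]
    intro m hm
    have := hs ⟨m, hm⟩
    rw [not_not] at this
    exact this
  have hcompact : CompactSpace X := Pi.compactSpace
  have hne : (⋂ m, Gd m).Nonempty := by
    by_contra hempty
    rw [not_nonempty_iff_eq_empty] at hempty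
    have h1 := isCompact_univ.elim_finite_subfamily_closed Gd hclosed (by
      rw [hempty, inter_empty])
    obtain ⟨S, hS⟩ := h1
    rw [univ_inter] at hS
    exact (hfin S).ne_empty hS
  obtain ⟨t, ht⟩ := hne
  rw [mem_iInter] at ht
  exact ⟨τ t, fun n => hτ01 t n, fun m => ht m⟩


theorem ent_closed : IsClosed {g : C(ℂ, ℂ) | Differentiable ℂ g} := by
  rw [isClosed_iff_forall_filter]
  intro g F hne hF hg
  have hT : Tendsto (fun h : C(ℂ, ℂ) => h) F (𝓝 g) := hg
  have h1 := ContinuousMap.tendsto_iff_tendstoLocallyUniformly.1 hT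
  have h2 : TendstoLocallyUniformlyOn (fun (h : C(ℂ, ℂ)) (z : ℂ) => h z) g F univ :=
    tendstoLocallyUniformlyOn_univ.2 h1
  have h3 := h2.differentiableOn (by
    have : {g : C(ℂ, ℂ) | Differentiable ℂ g} ∈ F := le_principal_iff.1 hF
    filter_upwards [this] with h hh
    exact Differentiable.differentiableOn hh) isOpen_univ
  exact differentiableOn_univ.1 h3

/-- multiplication by `z - b` -/
noncomputable def mulSub (b : ℂ) (g : C(ℂ, ℂ)) : C(ℂ, ℂ) :=
  ⟨fun z => (z - b) * g z, by fun_prop⟩

theorem T_zero (b : ℂ) (g : C(ℂ, ℂ)) (hg : Differentiable ℂ g) : T b 0 g = g b := by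
  rw [T_eq b 0 g hg]; simp

theorem T_mulSub (b : ℂ) (k : ℕ) (g : C(ℂ, ℂ)) : T b (k + 1) (mulSub b g) = T b k g := by
  unfold T
  congr 1
  apply circleIntegral.integral_congr zero_le_one
  intro z hz
  have hne : z - b ≠ 0 := by
    intro h
    rw [sub_eq_zero] at h
    rw [h] at hz
    simp at hz
  simp only [mulSub, ContinuousMap.coe_mk]
  field_simp
  ring

theorem mulSub_diff (b : ℂ) (g : C(ℂ, ℂ)) (hg : Differentiable ℂ g) :
    Differentiable ℂ (mulSub b g) := by
  have : (mulSub b g : ℂ → ℂ) = fun z => (z - b) * g z := rfl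
  rw [this]
  fun_prop

theorem mulSub_shift (b c : ℂ) (g : C(ℂ, ℂ)) : mulSub b g = mulSub c g + (c - b) • g := by
  ext z
  simp only [mulSub, ContinuousMap.coe_mk, ContinuousMap.add_apply, ContinuousMap.smul_apply,
    smul_eq_mul]
  ring

/-- `T` as an additive map -/
noncomputable def TA (a : ℂ) (k : ℕ) : C(ℂ, ℂ) →+ ℂ where
  toFun := T a k
  map_zero' := by
    have := T_sub a k 0 0
    simpa using this
  map_add' := T_add a k

/-- main construction -/
theorem construct {ι : Type*} [Nonempty ι] (a : ι → ℂ) (p : ι → ℕ)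
    (hp : ∀ n, 1 ≤ p n)
    (hU : ∀ l : (Σ n, Fin (p n)) → ℂ, (∀ j, ‖l j‖ ≤ 1) → ∃ (g : C(ℂ, ℂ)) (A B : ℝ),
      Differentiable ℂ g ∧ (∀ z, ‖g z‖ ≤ A * Real.exp (B * rho z)) ∧
        ∀ j : Σ n, Fin (p n), T (a j.1) j.2 g = l j) :
    ∃ (f : C(ℂ, ℂ)) (A B ε c : ℝ), 0 < A ∧ 0 < B ∧ 0 < ε ∧ 0 < c ∧ Differentiable ℂ f ∧
      (∀ z, ‖f z‖ ≤ A * Real.exp (B * rho z)) ∧
      (∀ n, ∀ k < p n, T (a n) k f = 0) ∧
      ∀ n, ε * Real.exp (-(c * rho (a n))) ≤ ‖T (a n) (p n) f‖ := by
  classical
  obtain ⟨K, B, hK, hB, hI⟩ := uniform_interp (J := Σ n, Fin (p n)) (fun j => a j.1)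
    (fun j => (j.2 : ℕ)) hU
  -- unit arrays
  have hunit : ∀ j0 : Σ n, Fin (p n), ∃ g : C(ℂ, ℂ), Differentiable ℂ g ∧
      (∀ z, ‖g z‖ ≤ K * Real.exp (B * rho z)) ∧
      ∀ j : Σ n, Fin (p n), T (a j.1) j.2 g = if j = j0 then 1 else 0 := by
    intro j0
    apply hI (fun j => if j = j0 then 1 else 0)
    intro j
    split_ifs <;> simp
  -- separation
  have hsep : ∀ m n, m ≠ n → Real.exp (-(B * rho (a n))) ≤
      (K * Real.exp (6 * B)) * ‖a n - a m‖ := by
    intro m n hmn
    have hK6 : 1 ≤ K * Real.exp (6 * B) := by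
      have : 1 ≤ Real.exp (6 * B) := Real.one_le_exp (by positivity)
      nlinarith
    rcases le_or_gt ‖a n - a m‖ 1 with h | h
    · obtain ⟨g, hg, hgb, hgi⟩ := hunit ⟨n, ⟨0, hp n⟩⟩
      have h1 : g (a n) = 1 := by
        rw [← T_zero (a n) g hg]
        have := hgi ⟨n, ⟨0, hp n⟩⟩
        simpa using this
      have h2 : g (a m) = 0 := by
        rw [← T_zero (a m) g hg]
        have := hgi ⟨m, ⟨0, hp m⟩⟩
        rw [if_neg] at this
        · simpa using this
        · intro h'
          exact hmn (congrArg Sigma.fst h')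
      have h3 := lip_of_bound hg (a n) (K * Real.exp (B * (rho (a n) + 6))) (by
        intro z hz
        refine (hgb z).trans ?_
        apply mul_le_mul_of_nonneg_left _ (by positivity)
        apply Real.exp_le_exp.2
        apply mul_le_mul_of_nonneg_left _ hB
        -- midpoint
        have hz' : ‖z - a n‖ ≤ 2 := by rw [← dist_eq_norm]; exact hz
        set w : ℂ := (z + a n) / 2 with hw
        have e1 : z - w = (z - a n) / 2 := by rw [hw]; ring
        have e2 : w - a n = (z - a n) / 2 := by rw [hw]; ring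
        have n1 : ‖z - w‖ ≤ 1 := by
          rw [e1, norm_div]; norm_num; linarith
        have n2 : ‖w - a n‖ ≤ 1 := by
          rw [e2, norm_div]; norm_num; linarith
        have := rho_le_add n1
        have := rho_le_add n2
        linarith) (z := a n) (w := a m) (mem_closedBall_self zero_le_one) (by
          rw [mem_closedBall, dist_comm, dist_eq_norm]; exact h)
      rw [h1, h2, sub_zero, norm_one] at h3
      have e : K * Real.exp (B * (rho (a n) + 6)) =
          (K * Real.exp (6 * B)) * Real.exp (B * rho (a n)) := by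
        rw [mul_assoc, ← Real.exp_add]; congr 2; ring
      rw [e] at h3
      rw [Real.exp_neg, inv_le_iff_one_le_mul₀ (Real.exp_pos _)]
      linarith
    · have h4 : Real.exp (-(B * rho (a n))) ≤ 1 :=
        Real.exp_le_one_iff.2 (neg_nonpos.2 (mul_nonneg hB (rho_nonneg _)))
      nlinarith
  have hK' : 1 ≤ K * Real.exp (6 * B) := by
    have : 1 ≤ Real.exp (6 * B) := Real.one_le_exp (by positivity)
    nlinarith
  have hsum := summable_of_sep a _ B hK' hB hsep
  set c1 : ℝ := 2 * B + 4 with hc1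
  set s : ι → ℝ := fun n => Real.exp (-(c1 * rho (a n))) with hs
  have hs0 : ∀ n, 0 < s n := fun n => Real.exp_pos _
  have hs1 : ∀ n, s n ≤ 1 := fun n =>
    Real.exp_le_one_iff.2 (neg_nonpos.2 (mul_nonneg (by positivity) (rho_nonneg _)))
  set Sg : ℝ := ∑' n, s n with hSg
  have hSg0 : 0 ≤ Sg := tsum_nonneg fun n => (hs0 n).le
  set N : ι → ℕ := fun n => ⌈(Sg + 1) / s n⌉₊ with hN
  have hNge : ∀ n, (Sg + 1) / s n ≤ N n := fun n => Nat.le_ceil _
  have hNle : ∀ n, (N n : ℝ) ≤ (Sg + 2) / s n := by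
    intro n
    have h1 : (N n : ℝ) < (Sg + 1) / s n + 1 := Nat.ceil_lt_add_one (by positivity)
    have h2 : (1 : ℝ) ≤ 1 / s n := by
      rw [le_div_iff₀ (hs0 n)]; linarith [hs1 n]
    have h3 : (Sg + 2) / s n = (Sg + 1) / s n + 1 / s n := by ring
    rw [h3]; linarith
  have hNpos : ∀ n, 0 < N n := by
    intro n
    have : (0 : ℝ) < N n := lt_of_lt_of_le (by positivity) (hNge n)
    exact_mod_cast this
  have hNinv : ∀ n, 1 / (N n : ℝ) ≤ s n / (Sg + 1) := by
    intro n
    have h1 : (0 : ℝ) < (Sg + 1) / s n := by positivity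
    calc 1 / (N n : ℝ) ≤ 1 / ((Sg + 1) / s n) := one_div_le_one_div_of_le h1 (hNge n)
      _ = s n / (Sg + 1) := by rw [one_div_div]
  have hNsum : Summable fun n => 1 / (N n : ℝ) :=
    Summable.of_nonneg_of_le (fun n => by positivity) hNinv (hsum.div_const _)
  have hNsum1 : ∑' n, 1 / (N n : ℝ) < 1 := by
    have h1 : ∑' n, 1 / (N n : ℝ) ≤ ∑' n, s n / (Sg + 1) :=
      hNsum.tsum_le_tsum hNinv (hsum.div_const _)
    have h2 : ∑' n, s n / (Sg + 1) = Sg / (Sg + 1) := by rw [tsum_div_const]
    rw [h2] at h1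
    refine lt_of_le_of_lt h1 ?_
    rw [div_lt_one (by positivity)]
    linarith
  -- the functions
  choose g hgd hgb hgi using fun n => hunit ⟨n, ⟨p n - 1, by have := hp n; omega⟩⟩
  set F : ι → C(ℂ, ℂ) := fun n => mulSub (a n) (g n) with hF
  have hFd : ∀ n, Differentiable ℂ (F n) := fun n => mulSub_diff _ _ (hgd n)
  have hFb : ∀ n z, ‖F n z‖ ≤ (4 * K) * Real.exp ((B + 1) * rho z) * Real.exp (rho (a n)) := by
    intro n z
    have e1 : F n z = (z - a n) * g n z := rfl
    rw [e1, norm_mul]
    have h1 : ‖z - a n‖ ≤ (2 * Real.exp (rho z)) * (2 * Real.exp (rho (a n))) := by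
      calc ‖z - a n‖ ≤ ‖z‖ + ‖a n‖ := norm_sub_le _ _
        _ ≤ (1 + ‖z‖) * (1 + ‖a n‖) := by nlinarith [norm_nonneg z, norm_nonneg (a n)]
        _ ≤ (2 * Real.exp (rho z)) * (2 * Real.exp (rho (a n))) :=
            mul_le_mul (one_add_norm_le z) (one_add_norm_le _) (by positivity) (by positivity)
    calc ‖z - a n‖ * ‖g n z‖
        ≤ ((2 * Real.exp (rho z)) * (2 * Real.exp (rho (a n)))) * (K * Real.exp (B * rho z)) :=
          mul_le_mul h1 (hgb n z) (norm_nonneg _) (by positivity)
      _ = (4 * K) * (Real.exp (rho z) * Real.exp (B * rho z)) * Real.exp (rho (a n)) := by ring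
      _ = (4 * K) * Real.exp ((B + 1) * rho z) * Real.exp (rho (a n)) := by
          rw [← Real.exp_add]; congr 3; ring
  set R : ι → ℝ := fun n => Real.exp (-((c1 + 1) * rho (a n))) with hR
  have hR0 : ∀ n, 0 < R n := fun n => Real.exp_pos _
  have hRs : ∀ n, R n * Real.exp (rho (a n)) = s n := by
    intro n
    simp only [hR, hs]
    rw [← Real.exp_add]; congr 1; ring
  set b : ι → ι → ℂ := fun n m => T (a m) (p m) (F n) with hb
  have hbmm : ∀ m, b m m = 1 := by
    intro m
    have h1 : p m = (p m - 1) + 1 := by have := hp m; omega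
    simp only [hb, hF]
    rw [h1, T_mulSub]
    have := hgi m ⟨m, ⟨p m - 1, by have := hp m; omega⟩⟩
    simpa using this
  have hcirc : ∀ m, ∀ z ∈ sphere (a m) 1, ∀ n, ‖F n z‖ ≤
      (4 * K) * Real.exp ((B + 1) * (rho (a m) + 3)) * Real.exp (rho (a n)) := by
    intro m z hz n
    refine (hFb n z).trans ?_
    apply mul_le_mul_of_nonneg_right _ (Real.exp_pos _).le
    apply mul_le_mul_of_nonneg_left _ (by positivity)
    apply Real.exp_le_exp.2
    apply mul_le_mul_of_nonneg_left _ (by positivity)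
    apply rho_le_add
    rw [mem_sphere_iff_norm] at hz
    exact hz.le
  obtain ⟨t, ht01, ht⟩ := exists_good N hNpos hNsum hNsum1 b R hR0
    (fun m n => ((4 * K) * Real.exp ((B + 1) * (rho (a m) + 3))) * s n)
    (fun m => hsum.mul_left _) (by
      intro m n
      rw [norm_mul, Complex.norm_real, Real.norm_of_nonneg (hR0 n).le]
      calc R n * ‖b n m‖ ≤ R n * ((4 * K) * Real.exp ((B + 1) * (rho (a m) + 3)) *
              Real.exp (rho (a n))) :=
            mul_le_mul_of_nonneg_left (T_bound _ _ _ _ fun z hz => hcirc m z hz n) (hR0 n).le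
        _ = ((4 * K) * Real.exp ((B + 1) * (rho (a m) + 3))) * (R n * Real.exp (rho (a n))) := by
            ring
        _ = _ := by rw [hRs]) hbmm
  -- the sum
  set Φ : ι → C(ℂ, ℂ) := fun n => ((R n : ℂ) * (t n : ℂ)) • F n with hΦ
  have hΦb : ∀ n z, ‖Φ n z‖ ≤ ((4 * K) * Real.exp ((B + 1) * rho z)) * s n := by
    intro n z
    have e1 : Φ n z = ((R n : ℂ) * (t n : ℂ)) * F n z := rfl
    rw [e1, norm_mul, norm_mul, Complex.norm_real, Complex.norm_real,
      Real.norm_of_nonneg (hR0 n).le, Real.norm_of_nonneg (ht01 n).1]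
    calc R n * t n * ‖F n z‖ ≤ R n * 1 * ((4 * K) * Real.exp ((B + 1) * rho z) *
            Real.exp (rho (a n))) := by
          apply mul_le_mul _ (hFb n z) (norm_nonneg _) (by have := hR0 n; positivity)
          exact mul_le_mul_of_nonneg_left (ht01 n).2 (hR0 n).le
      _ = ((4 * K) * Real.exp ((B + 1) * rho z)) * (R n * Real.exp (rho (a n))) := by ring
      _ = _ := by rw [hRs]
  have hΦs : Summable Φ := by
    apply ContinuousMap.summable_of_locally_summable_norm
    intro Kc
    have hcont : Continuous fun z : ℂ => (4 * K) * Real.exp ((B + 1) * rho z) := by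
      unfold rho
      have : Continuous fun z : ℂ => Real.log (1 + ‖z‖ ^ 2) := by
        apply Continuous.log (by fun_prop)
        intro z
        positivity
      have h2 : Continuous fun z : ℂ => |z.im| := by fun_prop
      fun_prop
    obtain ⟨C, hC⟩ := (Kc.isCompact.image hcont).bddAbove
    apply Summable.of_nonneg_of_le (fun n => norm_nonneg _) (fun n => ?_)
      (hsum.mul_left (max C 0))
    rw [ContinuousMap.norm_le _ (by have := (hs0 n).le; positivity)]
    rintro ⟨z, hz⟩
    refine (hΦb n z).trans ?_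
    apply mul_le_mul_of_nonneg_right _ (hs0 n).le
    exact (hC ⟨z, hz, rfl⟩).trans (le_max_left _ _)
  set f : C(ℂ, ℂ) := ∑' n, Φ n with hf
  have hfsum : HasSum Φ f := hΦs.hasSum
  have hfd : Differentiable ℂ f := by
    have := ent_closed.mem_of_tendsto hfsum (Eventually.of_forall fun S => ?_)
    · exact this
    · show Differentiable ℂ (∑ n ∈ S, Φ n : C(ℂ, ℂ))
      have e1 : ((∑ n ∈ S, Φ n : C(ℂ, ℂ)) : ℂ → ℂ) = fun z => ∑ n ∈ S, Φ n z := by
        ext z; simp
      rw [e1]
      apply Differentiable.fun_sum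
      intro n _
      exact (hFd n).const_smul _
  have hTf : ∀ b k, T b k f = ∑' n, ((R n : ℂ) * (t n : ℂ)) * T b k (F n) := by
    intro b k
    have h1 := hfsum.map (TA b k) (T_continuous b k)
    have h2 := h1.tsum_eq
    have e1 : (TA b k) f = T b k f := rfl
    rw [← e1, ← h2]
    apply tsum_congr
    intro n
    show T b k (Φ n) = _
    simp only [hΦ]
    rw [T_smul]
  refine ⟨f, (4 * K) * Sg + 1, B + 1, 1 / (2 * (Sg + 2)), 2 * c1 + 1, by positivity, by positivity,
    by positivity, by positivity, hfd, ?_, ?_, ?_⟩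
  · intro z
    have h1 : HasSum (fun n => Φ n z) (f z) :=
      hfsum.map (ContinuousMap.coeFnAddMonoidHom.comp (AddMonoidHom.id _) |> fun h =>
        (Pi.evalAddMonoidHom (fun _ : ℂ => ℂ) z).comp h) (continuous_eval_const (F := C(ℂ, ℂ)) z)
    have h2 : Summable fun n => ((4 * K) * Real.exp ((B + 1) * rho z)) * s n := hsum.mul_left _
    have h3 : ‖f z‖ ≤ ∑' n, ((4 * K) * Real.exp ((B + 1) * rho z)) * s n := by
      rw [← h1.tsum_eq]
      exact tsum_of_norm_bounded h2.hasSum (fun n => hΦb n z)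
    rw [tsum_mul_left] at h3
    have h4 : 0 < Real.exp ((B + 1) * rho z) := Real.exp_pos _
    nlinarith
  · intro m k hk
    rw [hTf]
    rw [tsum_congr (g := fun _ => (0 : ℂ)), tsum_zero]
    intro n
    have hz : T (a m) k (F n) = 0 := by
      -- `(z - a n) g n = (z - a m) g n + (a m - a n) g n`
      have e1 : F n = mulSub (a m) (g n) + (a m - a n) • g n := mulSub_shift _ _ _
      have e2 : (a m - a n) * T (a m) k (g n) = 0 := by
        by_cases hmn : m = n
        · subst hmn; simp
        · have := hgi n ⟨m, ⟨k, hk⟩⟩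
          rw [if_neg] at this
          · simp only at this
            rw [this, mul_zero]
          · intro h'
            exact hmn (congrArg Sigma.fst h')
      rw [e1, T_add, T_smul, e2, add_zero]
      rcases k with _ | k
      · rw [T_zero _ _ (mulSub_diff _ _ (hgd n))]
        simp [mulSub]
      · rw [T_mulSub]
        have := hgi n ⟨m, ⟨k, by omega⟩⟩
        rw [if_neg] at this
        · simpa using this
        · intro h'
          have h1 : m = n := congrArg Sigma.fst h'
          subst h1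
          have h2 := eq_of_heq (Sigma.mk.inj h').2
          have h3 := congrArg Fin.val h2
          simp only at h3
          omega
    rw [hz, mul_zero]
  · intro m
    rw [hTf]
    refine le_trans ?_ (ht m)
    have hNm : (0 : ℝ) < N m := by exact_mod_cast hNpos m
    rw [le_div_iff₀ (by positivity)]
    have h1 := hNle m
    have h2 : 1 / (2 * (Sg + 2)) * Real.exp (-((2 * c1 + 1) * rho (a m))) * (2 * (N m : ℝ)) ≤
        1 / (2 * (Sg + 2)) * Real.exp (-((2 * c1 + 1) * rho (a m))) *
          (2 * ((Sg + 2) / s m)) := by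
      apply mul_le_mul_of_nonneg_left _ (by positivity)
      linarith
    refine h2.trans (le_of_eq ?_)
    have e1 : Real.exp (-((2 * c1 + 1) * rho (a m))) = R m * s m := by
      simp only [hR, hs]
      rw [← Real.exp_add]; congr 1; ring
    rw [e1]
    have := hs0 m
    field_simp


/-- Every universal interpolating sequence `V` admits a function satisfying condition (2). (It is
not even necessary to assume that `V` is contained in the zero set of some nonzero element of the
algebra.) -/
theorem result {ι : Type} (a : ι → ℂ) (p : ι → ℕ) (hV : MultiplicitySequence a p)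
    (hU : UniversalInterpolating a p) : ∃ f : ℂ → ℂ, Condition2 a p f := by
  classical
  rcases isEmpty_or_nonempty ι with hι | hι
  · refine ⟨fun _ => 1, ⟨⟨differentiable_const _, 1, 1, one_pos, one_pos, fun z => ?_⟩, ?_⟩,
      fun n => hι.elim n, 1, 1, one_pos, one_pos, fun n => hι.elim n⟩
    · rw [norm_one, one_mul, one_mul]
      exact Real.one_le_exp (rho_nonneg z)
    · intro h
      have := congrFun h 0
      simp at this
  obtain ⟨f, A, B, ε, c, hA, hB, hε, hc, hfd, hfb, hf0, hf1⟩ := construct a p hV.pos (by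
    intro l hl
    obtain ⟨g, ⟨hgd, A, B, hA, hB, hgb⟩, hgi⟩ := hU
      (fun n k => if h : k < p n then l ⟨n, ⟨k, h⟩⟩ else 0) ⟨1, 1, one_pos, one_pos, by
        intro n k hk
        rw [dif_pos hk, one_mul, one_mul]
        exact (hl _).trans (Real.one_le_exp (rho_nonneg _))⟩
    refine ⟨⟨g, hgd.continuous⟩, A, B, hgd, hgb, ?_⟩
    rintro ⟨n, k, hk⟩
    rw [T_eq (a n) k ⟨g, hgd.continuous⟩ hgd]
    have := hgi n k hk
    rw [dif_pos hk] at this
    exact this)
  refine ⟨f, ⟨⟨hfd, A, B, hA, hB, hfb⟩, ?_⟩, ?_, ε, c, hε, hc, ?_⟩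
  · intro h
    obtain ⟨n⟩ := hι
    have h1 := hf1 n
    rw [T_eq (a n) (p n) f hfd, h] at h1
    have h2 : iteratedDeriv (p n) (0 : ℂ → ℂ) (a n) = 0 := by
      have : (0 : ℂ → ℂ) = fun _ => 0 := rfl
      rw [this, iteratedDeriv_fun_const_zero]
    rw [h2, zero_div, norm_zero] at h1
    have : 0 < ε * Real.exp (-(c * rho (a n))) := by positivity
    linarith
  · intro n k hk
    have h1 := hf0 n k hk
    rw [T_eq (a n) k f hfd] at h1
    have h2 : (k.factorial : ℂ) ≠ 0 := by exact_mod_cast k.factorial_ne_zero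
    exact (div_eq_zero_iff.1 h1).resolve_right h2
  · intro n
    have h1 := hf1 n
    rw [T_eq (a n) (p n) f hfd, norm_div, Complex.norm_natCast] at h1
    exact h1

end Pool.Agent.Results.MP_2fa38d_an.UniversalCondition
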